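import Pool.Agent.Helper15.RK.GoalsF
import Pool.Agent.Helper62.SP.FINV
import Pool.Agent.Helper75.SP.BSUM
import Pool.Agent.Helper32.SP.ARRB

/-! # Packet KES: `H + s LM Φ` is an invariant Kähler metric -/

open Complex Metric Set Filter Topology MeasureTheory
open scoped ContDiff ComplexConjugate ComplexOrder Manifold Matrix

namespace Pool.Agent.Helper27.RK

open Pool.Agent.Helper95.Lin Pool.Agent.Helper16.Abund Pool.Agent.Helper92.Orb
  Pool.Agent.Helper10.SP Pool.Agent.Helper95.RK Pool.Agent.Helper15.RK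

universe u v

theorem fd_expand {n m : ℕ} (L : Cn m →L[ℂ] Cn n) (e : Cn m) (p : Fin n) :
    L e p = ∑ j, e j * L (Pi.single j 1) p := by
  have h1 : e = ∑ j, e j • (Pi.single j 1 : Cn m) := by
    funext i
    rw [Finset.sum_apply, Finset.sum_eq_single i]
    · simp
    · intro j _ hj
      simp [hj.symm]
    · intro h
      exact absurd (Finset.mem_univ i) h
  conv_lhs => rw [h1, map_sum]
  rw [Finset.sum_apply]
  refine Finset.sum_congr rfl fun j _ => ?_
  rw [map_smul]
  rfl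

/-- the transformation of Hermitian forms under a linear map -/
theorem hermi_pull {n m : ℕ} (L : Cn m →L[ℂ] Cn n) (A : Matrix (Fin m) (Fin m) ℂ)
    (B : Matrix (Fin n) (Fin n) ℂ) (h : ∀ j k, A j k = ∑ p, ∑ q, L (Pi.single j 1) p *
      conj (L (Pi.single k 1) q) * B p q) (e e' : Cn m) :
    hermi B (L e) (L e') = hermi A e e' := by
  unfold hermi
  have h1 : ∀ p q, B p q * L e p * conj (L e' q) = ∑ j, ∑ k,
      (L (Pi.single j 1) p * conj (L (Pi.single k 1) q) * B p q) * e j * conj (e' k) := by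
    intro p q
    rw [fd_expand L e p, fd_expand L e' q, map_sum, mul_assoc, Finset.sum_mul_sum,
      Finset.mul_sum]
    refine Finset.sum_congr rfl fun j _ => ?_
    rw [Finset.mul_sum]
    refine Finset.sum_congr rfl fun k _ => ?_
    rw [map_mul]
    ring
  simp only [h1]
  calc ∑ p, ∑ q, ∑ j, ∑ k,
        (L (Pi.single j 1) p * conj (L (Pi.single k 1) q) * B p q) * e j * conj (e' k)
      = ∑ p, ∑ j, ∑ q, ∑ k,
        (L (Pi.single j 1) p * conj (L (Pi.single k 1) q) * B p q) * e j * conj (e' k) :=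
        Finset.sum_congr rfl fun p _ => Finset.sum_comm
    _ = ∑ j, ∑ p, ∑ q, ∑ k,
        (L (Pi.single j 1) p * conj (L (Pi.single k 1) q) * B p q) * e j * conj (e' k) :=
        Finset.sum_comm
    _ = ∑ j, ∑ p, ∑ k, ∑ q,
        (L (Pi.single j 1) p * conj (L (Pi.single k 1) q) * B p q) * e j * conj (e' k) :=
        Finset.sum_congr rfl fun j _ => Finset.sum_congr rfl fun p _ => Finset.sum_comm
    _ = ∑ j, ∑ k, ∑ p, ∑ q,
        (L (Pi.single j 1) p * conj (L (Pi.single k 1) q) * B p q) * e j * conj (e' k) :=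
        Finset.sum_congr rfl fun j _ => Finset.sum_comm
    _ = ∑ j, ∑ k, A j k * e j * conj (e' k) := by
        refine Finset.sum_congr rfl fun j _ => Finset.sum_congr rfl fun k _ => ?_
        rw [h j k, Finset.sum_mul, Finset.sum_mul]
        refine Finset.sum_congr rfl fun p _ => ?_
        rw [Finset.sum_mul, Finset.sum_mul]

theorem hermi_add_smul {n : ℕ} (A B : Matrix (Fin n) (Fin n) ℂ) (s : ℂ) (e e' : Cn n) :
    hermi (A + s • B) e e' = hermi A e e' + s * hermi B e e' := by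
  unfold hermi
  simp only [Matrix.add_apply, Matrix.smul_apply, smul_eq_mul, Finset.mul_sum,
    ← Finset.sum_add_distrib]
  refine Finset.sum_congr rfl fun j _ => Finset.sum_congr rfl fun k _ => ?_
  ring

/-- the Levi matrix of the potential is invariant -/
theorem lm_inv (hW : S_WIRT) (hC : S_WCH) {n : ℕ} {T : Set (Cn n)} {G : Type u} [Group G]
    {R : G → Cn n → Cn n → Prop} (hE : Et T R) {Φ : Cn n → ℝ} (hΦ : ContDiffOn ℝ ∞ Φ T)
    (hpot : ∀ U τ, Arr R U τ → ∀ x ∈ U, Φ x = Φ (τ x) + Real.log (‖(fderiv ℂ τ x).det‖ ^ 2)) :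
    ∀ U τ, Arr R U τ → ∀ x ∈ U, ∀ e e',
    hermi (LM Φ (τ x)) (fderiv ℂ τ x e) (fderiv ℂ τ x e') = hermi (LM Φ x) e e' := by
  intro U τ hA x hx e e'
  have hp := hpot U τ hA
  obtain ⟨hUo, hτ, γ, hγ⟩ := hA
  have hmap : MapsTo τ U T := fun y hy => (hE.mem γ _ _ (hγ y hy)).2
  have hdet : ∀ y ∈ U, (fderiv ℂ τ y).det ≠ 0 := fun y hy =>
    (Pool.Agent.Helper32.SP.two hE γ U τ ⟨hUo, hτ, hγ⟩ y hy).1
  have hholo : DifferentiableOn ℂ (fun y => (fderiv ℂ τ y).det) U :=
    Pool.Agent.Helper75.SP.BS.det_holo hUo hτ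
  obtain ⟨hl1, hl2⟩ := hC.2 U hUo _ hholo hdet
  have hcomp : ContDiffOn ℝ ∞ (fun y => Φ (τ y)) U :=
    hΦ.comp (holo_contDiffOn_real hUo hτ) hmap
  have h1 : LM Φ x = LM (fun y => Φ (τ y)) x := by
    rw [Pool.Agent.Helper62.SP.LM_congr (Φ := Φ)
      (Ψ := fun y => Φ (τ y) + Real.log (‖(fderiv ℂ τ y).det‖ ^ 2))
      (by filter_upwards [hUo.mem_nhds hx] with y hy using hp y hy),
      Pool.Agent.Helper62.SP.LM_add hW hUo hcomp hl1 hx, (hl2 x hx).2.1, add_zero]
  have h2 := ((hC.1 T U hE.isOpen hUo τ hτ hmap).2 Φ hΦ x hx).2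
  rw [h1]
  exact hermi_pull (fderiv ℂ τ x) _ _ h2 e e'

theorem kes (hW : S_WIRT) (hC : S_WCH) (hL : S_LMF) : S_KES.{u} := by
  intro b k T G _ R H Φ g hF
  have hT := hF.ket.et.isOpen
  obtain ⟨l1, l2, l3, l4⟩ := hL T hT Φ hF.smP
  have hinv := lm_inv hW hC hF.ket.et hF.smP hF.pot
  refine ⟨fun s hs => ?_, hinv⟩
  refine ⟨hF.ket.et, fun x hx => ?_, fun i j => ?_, fun x hx i j l => ?_, fun U τ hA x hx e e' => ?_⟩
  · refine (hF.ket.posDef x hx).add_posSemidef ?_
    refine (Pool.Agent.Helper62.SP.posSemidef_LM hL hT hF.smP hx (hF.rank x hx).1).smul ?_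
    exact_mod_cast hs
  · exact (hF.ket.smooth i j).add (contDiffOn_const.mul (l1 i j))
  · have key : ∀ i j l : Fin (b + k), cd l (fun y => (H y + (s : ℂ) • LM Φ y) i j) x =
        cd l (fun y => H y i j) x + (s : ℂ) * cd l (fun y => LM Φ y i j) x := by
      intro i j l
      have hd1 : DifferentiableAt ℝ (fun y => H y i j) x :=
        ((hF.ket.smooth i j).contDiffAt (hT.mem_nhds hx)).differentiableAt (by simp)
      have hd2 : DifferentiableAt ℝ (fun y => LM Φ y i j) x :=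
        ((l1 i j).contDiffAt (hT.mem_nhds hx)).differentiableAt (by simp)
      have h1 : fderiv ℝ (fun y => (H y + (s : ℂ) • LM Φ y) i j) x =
          fderiv ℝ (fun y => H y i j) x + (s : ℂ) • fderiv ℝ (fun y => LM Φ y i j) x := by
        have h2 : HasFDerivAt (fun y => (H y + (s : ℂ) • LM Φ y) i j)
            (fderiv ℝ (fun y => H y i j) x + (s : ℂ) • fderiv ℝ (fun y => LM Φ y i j) x) x :=
          hd1.hasFDerivAt.add (hd2.hasFDerivAt.const_smul (s : ℂ))
        exact h2.fderiv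
      unfold cd
      rw [h1]
      simp only [add_apply, smul_apply, smul_eq_mul]
      ring
    rw [key i j l, key l j i, hF.ket.closed x hx i j l, (l4 x hx i j l).1]
  · rw [hermi_add_smul, hermi_add_smul, hF.ket.inv U τ hA x hx e e', hinv U τ hA x hx e e']

end Pool.Agent.Helper27.RK
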